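import Mathlib
import Pool.Agent.Y225.HN.Dih
import Pool.Agent.Y225.HN.GAmen

/-!
# Left and right Haar null sets in Polish groups with a basis of open normal subgroups

Let `G` be a Polish group whose identity has a basis of neighbourhoods consisting of open normal
subgroups (these are the non-archimedean Polish groups with a two-sided invariant metric, that is,
the closed subgroups of countable products of countable discrete groups). The left Haar null and the
right Haar null subsets of `G` coincide if and only if some open subgroup of `G` has only relatively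
compact conjugacy classes. If all the quotients by open normal subgroups are amenable (condition of
Følner) then `G` is amenable at 1.

In particular, for countable groups `Γ n`, the left and the right Haar null subsets of `∏ Γ n`
coincide if and only if all but finitely many of the `Γ n` have only finite conjugacy classes. So
they differ, for example, in the countable power of the infinite dihedral group, which is amenable
at 1.
-/

set_option autoImplicit false

open MeasureTheory Filter Topology Pool.Agent.Y225.HN

namespace Pool.Agent.Results.MP_092965_lc.OpenNormalBasisDichotomy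

/-- Some open subgroup `V` of `G` has only relatively compact conjugacy classes. -/
def HasOpenSubgroupWithCompactClasses (G : Type) [Group G] [TopologicalSpace G] : Prop :=
  ∃ V : Subgroup G, IsOpen (V : Set G) ∧
    ∀ x ∈ V, IsCompact (closure {y : G | ∃ v ∈ V, y = v * x * v⁻¹})

/-- The dichotomy for Polish groups with a basis of open normal subgroups, and for products. -/
theorem result :
    (∀ (G : Type) [Group G] [TopologicalSpace G] [IsTopologicalGroup G] [PolishSpace G]
      [MeasurableSpace G] [BorelSpace G], NormalBasis G →
      ((∀ A : Set G, LeftHaarNull A ↔ RightHaarNull A) ↔ HasOpenSubgroupWithCompactClasses G) ∧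
      (¬ HasOpenSubgroupWithCompactClasses G →
        ∃ A : Set G, IsClosed A ∧ LeftHaarNull A ∧ ¬ RightHaarNull A) ∧
      ((∀ V : Subgroup G, ∀ _ : V.Normal, IsOpen (V : Set G) → Folner (G ⧸ V)) →
        AmenableAtOne G)) ∧
    (∀ (Γ : ℕ → Type) [∀ n, Group (Γ n)] [∀ n, Countable (Γ n)] [∀ n, TopologicalSpace (Γ n)]
      [∀ n, DiscreteTopology (Γ n)] [MeasurableSpace (∀ n, Γ n)] [BorelSpace (∀ n, Γ n)],
      IsTopologicalGroup (∀ n, Γ n) ∧ PolishSpace (∀ n, Γ n) ∧
      ((∀ A : Set (∀ n, Γ n), LeftHaarNull A ↔ RightHaarNull A) ↔ {n | ¬ FC (Γ n)}.Finite) ∧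
      ({n | ¬ FC (Γ n)}.Infinite →
        ∃ A : Set (∀ n, Γ n), IsClosed A ∧ LeftHaarNull A ∧ ¬ RightHaarNull A) ∧
      ((∀ n, Folner (Γ n)) → AmenableAtOne (∀ n, Γ n))) ∧
    Countable (DihedralGroup 0) ∧ Folner (DihedralGroup 0) ∧ ¬ FC (DihedralGroup 0) := by
  refine ⟨?_, ?_, countable_dd, folner_dd, not_fc_dd⟩
  · intro G _ _ _ _ _ _ hG
    exact ⟨(dichotomy hG).1, (dichotomy hG).2, amenable_at_one hG⟩
  · intro Γ _ _ _ _ m hB
    let m1 : ∀ n, MeasurableSpace (Γ n) := fun n => borel (Γ n)
    have m2 : ∀ n, BorelSpace (Γ n) := fun n => ⟨rfl⟩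
    obtain rfl : m = MeasurableSpace.pi := by
      rw [hB.measurable_eq]
      exact (Pi.borelSpace (X := Γ)).measurable_eq.symm
    refine ⟨inferInstance, inferInstance, ⟨fun h => ?_, fun h A => coincide h A⟩, differ, amenable⟩
    by_contra hinf
    obtain ⟨A, -, h1, h2⟩ := differ (Γ := Γ) hinf
    exact h2 ((h A).mp h1)

end Pool.Agent.Results.MP_092965_lc.OpenNormalBasisDichotomy
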