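import Mathlib
import Pool.Agent.Y920.HN.Main2
import Pool.Agent.Y908.HN.GRP
import Pool.Agent.Y646.HN.SETS
import Pool.Agent.Y748.HN.CATCH
import Pool.Agent.Y909.HN.CANTOR
import Pool.Agent.Y908.HN.CPT
import Pool.Agent.Y309.HN.SCHUR
import Pool.Agent.Y781.HN.K
import Pool.Agent.Y369.HN.HAAR
import Pool.Agent.Y465.HN.NU
import Pool.Agent.Y970.HN.RED
import Pool.Agent.Y585.HN.CONV
import Pool.Agent.Y970.HN.INF
import Pool.Agent.Y768.HN.FILT
import Pool.Agent.Y246.HN.AMEN
import Pool.Agent.Y540.HN.PRODI
import Pool.Agent.Y891.HN.GRP2
import Pool.Agent.Y920.HN.SETS2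
import Pool.Agent.Y676.HN.CATCH2
import Pool.Agent.H534R3.HNDih

/-!
# Left and right Haar null sets in the Polish groups with small open normal subgroups

We determine exactly when left and right Haar null sets agree, for all closed subgroups `H` of
countable products of countable discrete groups. These are, up to isomorphism, the Polish groups in
which the open normal subgroups form a base at the identity (the non-archimedean Polish groups with a
two-sided invariant metric).

`OpenFC H`: some open subgroup `U` of `H` has relatively compact conjugacy classes, that is the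
closure of `{y x y⁻¹ : y ∈ U}` is compact for every `x ∈ U`.

The definitions of left Haar null, right Haar null and Haar null sets and of amenability at 1 are
those of the problem (Haar null: one Borel hull `B` and one measure `μ` with `μ (g B h) = 0` for all
`g`, `h`), they are in `Pool/Agent/Y920/HN/Stm.lean`, as well as `FC` (all conjugacy classes are
finite) and `LocFin` (locally finite).

Ideas. If no open subgroup has relatively compact classes there are levels `V_i` (open normal
subgroups) and `t_i ∈ V_i` with infinitely many `V_i`-conjugates modulo `V_{i+1}`. A greedy choice in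
the countable group `H / V_{i+1}` gives `A_i` with `A_i ∩ A_i t_i = ∅` which contains `F g'`, for some
lift `g'` of `g`, for every finite `F` and every `g` modulo `V_i`. The intersection of the `A_i`
contains a right translate of every compact set, but each of its left translates meets the Cantor set
of the products of the `t_i` in at most one point. Conversely let `U = V_k` have relatively compact
classes and let `μ` be a left witness, with compact support `C ⊆ U` without loss of generality.
The commutators `[U, C]` generate a relatively compact subgroup (theorem of Schur), so that the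
convolution of its Haar measure with `μ` is invariant under conjugation by `U` and hence a two-sided
witness for `U`; an infinite convolution over the countably many cosets of `U` gives a witness for all
two-sided translates.

Project HN (helper920) with helper908, helper646, helper748, helper909, helper309, helper781,
helper369, helper465, helper970, helper585, helper768, helper246, helper540, helper891, helper676.
-/

set_option autoImplicit false

open MeasureTheory Filter Topology

namespace Pool.Agent.Results.MP_092965_lc.TwoSidedMetricGroups

open Pool.Agent.Y920.HN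

section defs

variable (G : Type) [Group G] [TopologicalSpace G] [MeasurableSpace G]

/-- The equivalence: some open subgroup has relatively compact conjugacy classes; the left Haar null
sets are the right Haar null sets; left Haar null sets are Haar null; right Haar null sets are Haar
null; closed left Haar null sets are right Haar null; closed right Haar null sets are left Haar null;
closed sets which are left and right Haar null are Haar null. -/
def Characterization : Prop :=
  List.TFAE [
    OpenFC G,
    ∀ A : Set G, LeftHaarNull A ↔ RightHaarNull A,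
    ∀ A : Set G, LeftHaarNull A → HaarNull A,
    ∀ A : Set G, RightHaarNull A → HaarNull A,
    ∀ A : Set G, IsClosed A → LeftHaarNull A → RightHaarNull A,
    ∀ A : Set G, IsClosed A → RightHaarNull A → LeftHaarNull A,
    ∀ A : Set G, IsClosed A → LeftHaarNull A → RightHaarNull A → HaarNull A]

/-- Some closed left Haar null set, which is not right Haar null, contains a right translate of every
compact set. -/
def OneSidedExample : Prop :=
  ∃ A : Set G, IsClosed A ∧ LeftHaarNull A ∧ ¬ RightHaarNull A ∧
    ∀ C : Set G, IsCompact C → ∃ g : G, ∀ c ∈ C, c * g ∈ A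

/-- Some closed left and right Haar null set, which is not Haar null, contains a two-sided translate
of every compact set. -/
def TwoSidedExample : Prop :=
  ∃ A : Set G, IsClosed A ∧ LeftHaarNull A ∧ RightHaarNull A ∧ ¬ HaarNull A ∧
    ∀ C : Set G, IsCompact C → ∃ g g' : G, ∀ c ∈ C, g' * c * g ∈ A

end defs

theorem tt_INF : S_INF := Pool.Agent.Y970.HN.t_INF Pool.Agent.Y585.HN.t_CONV

theorem tt_SETS : S_SETS := Pool.Agent.Y646.HN.t_SETS Pool.Agent.Y908.HN.t_GRP

theorem tt_SETS2 : S_SETS2 := Pool.Agent.Y920.HN.t_SETS2 Pool.Agent.Y891.HN.t_GRP2

/-- (1) For a closed subgroup `H` of a countable product of countable discrete groups the following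
are equivalent: some open subgroup has relatively compact conjugacy classes; the left Haar null sets
are the right Haar null sets; the left Haar null sets are Haar null; the right Haar null sets are Haar
null; closed left Haar null sets are right Haar null; closed right Haar null sets are left Haar null;
the closed sets which are left and right Haar null are Haar null.
(2) If this fails then some closed left Haar null set contains a right translate of every compact set,
and some closed set which is left and right Haar null contains a two-sided translate of every compact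
set.
(3) For full products (`H = ⊤`) the condition says that all but finitely many factors have only finite
conjugacy classes.
(4) If the factors are locally finite, then `H` is amenable at 1.
(5) So the answer to the question is negative: there are a Polish group which is amenable at 1 and a
closed subset of it which is left Haar null but not right Haar null; namely every product of countable
locally finite groups infinitely many of which have an infinite conjugacy class is such a group, and
such groups exist. -/
theorem result :
    (∀ (Q : ℕ → Type) [∀ n, Group (Q n)] [∀ n, TopologicalSpace (Q n)]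
      [∀ n, DiscreteTopology (Q n)] [∀ n, Countable (Q n)] (H : Subgroup (∀ n, Q n))
      [MeasurableSpace H] [BorelSpace H], IsClosed (H : Set (∀ n, Q n)) →
      PolishSpace H ∧ Characterization H ∧
      (¬ OpenFC H → OneSidedExample H ∧ TwoSidedExample H) ∧
      (H = ⊤ → (OpenFC H ↔ ∃ m, ∀ n ≥ m, FC (Q n))) ∧
      ((∀ n, LocFin (Q n)) → AmenableAtOne H)) ∧
    ∃ (G : Type) (_ : Group G) (_ : TopologicalSpace G) (_ : IsTopologicalGroup G)
      (_ : PolishSpace G) (_ : MeasurableSpace G) (_ : BorelSpace G),
      AmenableAtOne G ∧ ∃ A : Set G, IsClosed A ∧ LeftHaarNull A ∧ ¬ RightHaarNull A := by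
  have main : ∀ (Q : ℕ → Type) [∀ n, Group (Q n)] [∀ n, TopologicalSpace (Q n)]
      [∀ n, DiscreteTopology (Q n)] [∀ n, Countable (Q n)] (H : Subgroup (∀ n, Q n))
      [MeasurableSpace H] [BorelSpace H], IsClosed (H : Set (∀ n, Q n)) →
      PolishSpace H ∧ Characterization H ∧
      (¬ OpenFC H → OneSidedExample H ∧ TwoSidedExample H) ∧
      (H = ⊤ → (OpenFC H ↔ ∃ m, ∀ n ≥ m, FC (Q n))) ∧
      ((∀ n, LocFin (Q n)) → AmenableAtOne H) := by
    intro Q _ _ _ _ H _ _ hH
    obtain ⟨hP, F, hF⟩ := Pool.Agent.Y768.HN.t_FILT Q H hH
    have hiff := openFC_iff Pool.Agent.Y908.HN.t_CPT F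
    refine ⟨hP, ?_, ?_, ?_, ?_⟩
    · exact tfae2 tt_SETS tt_SETS2 Pool.Agent.Y748.HN.t_CATCH Pool.Agent.Y676.HN.t_CATCH2
        Pool.Agent.Y909.HN.t_CANTOR Pool.Agent.Y908.HN.t_CPT Pool.Agent.Y309.HN.t_SCHUR
        Pool.Agent.Y781.HN.t_K Pool.Agent.Y369.HN.t_HAAR Pool.Agent.Y465.HN.t_NU
        Pool.Agent.Y970.HN.t_RED tt_INF F
    · intro hno
      have hcon : ∀ k, ¬ BddAt F k := fun k hk => hno (hiff.2 ⟨k, hk⟩)
      exact ⟨neg tt_SETS Pool.Agent.Y748.HN.t_CATCH Pool.Agent.Y909.HN.t_CANTOR F hcon,
        neg2 tt_SETS2 Pool.Agent.Y676.HN.t_CATCH2 Pool.Agent.Y909.HN.t_CANTOR F hcon⟩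
    · rintro rfl
      rw [hiff]
      exact Pool.Agent.Y540.HN.t_PRODI Q F hF
    · intro hloc
      exact Pool.Agent.Y246.HN.t_AMEN Q H hH hloc
  refine ⟨fun Q _ _ _ _ H _ _ hH => main Q H hH, ?_⟩
  -- the example
  let H : Subgroup (ℕ → Pool.Agent.H534R3.HNDih.Dih) := ⊤
  let _ : MeasurableSpace H := borel H
  have hb : BorelSpace H := ⟨rfl⟩
  obtain ⟨hP, -, hneg, htop, ham⟩ := main (fun _ => Pool.Agent.H534R3.HNDih.Dih) H isClosed_univ
  have hloc : LocFin Pool.Agent.H534R3.HNDih.Dih := by
    intro s hs
    obtain ⟨d, hd⟩ := Pool.Agent.H534R3.HNDih.exists_sub s hs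
    have hle : Subgroup.closure s ≤ Pool.Agent.H534R3.HNDih.sub d :=
      (Subgroup.closure_le _).2 fun x hx => hd x hx
    exact Finite.of_injective _ (Subgroup.inclusion_injective hle)
  have hnot : ¬ FC Pool.Agent.H534R3.HNDih.Dih := by
    intro hFC
    obtain ⟨d, hd⟩ := Pool.Agent.H534R3.HNDih.exists_sub _ (hFC Pool.Agent.H534R3.HNDih.τ)
    have h1 := hd _ ⟨⟨Polynomial.X ^ d, 1⟩, rfl⟩
    rw [Pool.Agent.H534R3.HNDih.mem_sub, Polynomial.mem_degreeLT] at h1
    have h2 : ((⟨Polynomial.X ^ d, 1⟩ : Pool.Agent.H534R3.HNDih.Dih) * Pool.Agent.H534R3.HNDih.τ *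
        (⟨Polynomial.X ^ d, 1⟩ : Pool.Agent.H534R3.HNDih.Dih)⁻¹).v
        = Polynomial.C (2 : ZMod 3) * Polynomial.X ^ d := by
      simp only [Pool.Agent.H534R3.HNDih.τ, Pool.Agent.H534R3.HNDih.mul_v,
        Pool.Agent.H534R3.HNDih.mul_s, Pool.Agent.H534R3.HNDih.inv_v]
      simp
      rw [show (2 : ZMod 3) = 1 + 1 by decide, Polynomial.C_add, Polynomial.C_1]
      ring
    rw [h2, Polynomial.degree_C_mul_X_pow d (by decide)] at h1
    exact absurd h1 (lt_irrefl _)
  have hno : ¬ OpenFC H := by
    rw [htop rfl]
    rintro ⟨m, hm⟩
    exact hnot (hm m le_rfl)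
  obtain ⟨A, hA, hl, hr, -⟩ := (hneg hno).1
  exact ⟨H, inferInstance, inferInstance, inferInstance, hP, inferInstance, hb, ham fun _ => hloc, A,
    hA, hl, hr⟩

end Pool.Agent.Results.MP_092965_lc.TwoSidedMetricGroups
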